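import Pool.Agent.Helper94.UP.Sheet

set_option autoImplicit false

open Finset

namespace Pool.Agent.Helper94.UP

universe u

theorem ga_zero {X : Type*} (b : ℕ → X → ℝ) (x : X) (N : ℕ) (hN : b N x = 1) (n : ℕ)
    (hn : N < n) : ∏ m ∈ Finset.range n, (1 - b m x) = 0 :=
  Finset.prod_eq_zero (Finset.mem_range.2 hn) (by rw [hN]; ring)

theorem stGA : ST_GA.{u} := by
  intro X b h x N hN
  refine ⟨?_, ga_zero b x N hN (N + 1) (Nat.lt_succ_self N)⟩
  unfold Kg
  refine tsum_eq_sum (fun n hn => ?_)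
  have h1 : N < n := by
    by_contra hc
    exact hn (Finset.mem_range.2 (by omega))
  unfold psi
  rw [ga_zero b x N hN n h1]
  ring

theorem st_GA : ST_GA.{u} := stGA

end Pool.Agent.Helper94.UP
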